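import Mathlib

set_option autoImplicit false

namespace Pool.Agent.TH842.Lac

open Finset Filter

/-- counting hits in a block of `q` consecutive integers, `q` the denominator of a rational
approximation -/
lemma block_count (ξ : ℝ) (r : ℚ) (Q : ℕ) (hQ : r.den ≤ Q)
    (hr : |ξ - r| ≤ 1 / (((Q : ℝ) + 1) * r.den))
    (a b : ℝ) (ha : 0 ≤ a) (hb : b ≤ 1) (m : ℕ) :
    (r.den : ℝ) * (b - a) - 3 ≤
      (((Finset.Ico m (m + r.den)).filter
        (fun t : ℕ => Int.fract (ξ * t) ∈ Set.Ioo a b)).card : ℝ) := by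
  classical
  set q : ℕ := r.den with hq
  have hq0 : 0 < q := r.den_pos
  have hqR : (0 : ℝ) < q := by exact_mod_cast hq0
  set c : ℝ := Int.fract (ξ * m) with hc
  have hc0 : 0 ≤ c := Int.fract_nonneg _
  have hc1 : c < 1 := Int.fract_lt_one _
  -- inverse of the numerator
  have hcop : IsCoprime r.num (q : ℤ) := by
    rw [Int.isCoprime_iff_gcd_eq_one]
    have := r.reduced
    simpa [Int.gcd, Nat.Coprime] using this
  obtain ⟨u, v, huv⟩ := hcop
  -- u * num + v * q = 1
  set x : ℝ := q * (a + 1 - c) + 1 with hx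
  set y : ℝ := q * (b + 1 - c) - 1 with hy
  set I : Finset ℤ := Finset.Icc ⌈x⌉ ⌊y⌋ with hI
  have hIcard : (q : ℝ) * (b - a) - 3 ≤ (I.card : ℝ) := by
    rw [hI, Int.card_Icc]
    have h1 : ((⌊y⌋ + 1 - ⌈x⌉ : ℤ) : ℝ) ≤ (((⌊y⌋ + 1 - ⌈x⌉).toNat : ℤ) : ℝ) := by
      exact_mod_cast Int.self_le_toNat _
    have h2 : y - 1 < ⌊y⌋ := Int.sub_one_lt_floor y
    have h3 : (⌈x⌉ : ℝ) < x + 1 := Int.ceil_lt_add_one x
    push_cast at h1
    have h4 : (q : ℝ) * (b - a) - 3 = y - x - 1 := by rw [hx, hy]; ring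
    rw [h4]
    have h5 : (((⌊y⌋ + 1 - ⌈x⌉).toNat : ℤ) : ℝ) = (((⌊y⌋ + 1 - ⌈x⌉).toNat : ℕ) : ℝ) := by
      norm_cast
    push_cast at h5
    linarith
  refine hIcard.trans ?_
  have hmaps : I.card ≤ ((Finset.Ico m (m + q)).filter
        (fun t : ℕ => Int.fract (ξ * t) ∈ Set.Ioo a b)).card := by
    refine Finset.card_le_card_of_injOn (fun i : ℤ => m + ((i * u) % (q : ℤ)).toNat) ?_ ?_
    · intro i hi
      rw [hI, Finset.coe_Icc, Set.mem_Icc, Int.ceil_le, Int.le_floor] at hi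
      have hs0 : 0 ≤ (i * u) % (q : ℤ) := Int.emod_nonneg _ (by omega)
      have hs1 : (i * u) % (q : ℤ) < q := Int.emod_lt_of_pos _ (by omega)
      set s : ℤ := (i * u) % (q : ℤ) with hs
      have hsn : ((s.toNat : ℕ) : ℤ) = s := Int.toNat_of_nonneg hs0
      have hsR : ((s.toNat : ℕ) : ℝ) = (s : ℝ) := by
        have := congrArg (Int.cast : ℤ → ℝ) hsn
        rwa [Int.cast_natCast] at this
      -- num * s = i + q * k
      obtain ⟨k, hk⟩ : ∃ k : ℤ, r.num * s = i + q * k := by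
        have h1 : s = i * u - q * ((i * u) / q) := by rw [hs, Int.emod_def]
        refine ⟨-(v * i) - r.num * ((i * u) / q), ?_⟩
        rw [h1]
        have : r.num * (i * u) = i * (1 - v * q) := by rw [← huv]; ring
        rw [mul_sub, this]; ring
      simp only [Finset.coe_filter, Finset.mem_Ico, Set.mem_ofPred_eq]
      refine ⟨⟨by omega, by omega⟩, ?_⟩
      -- compute
      have hkR : (r.num : ℝ) * s = i + q * k := by exact_mod_cast hk
      have hrR : (r : ℝ) = r.num / q := by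
        rw [hq]; exact_mod_cast (Rat.num_div_den r).symm
      set e : ℝ := (ξ - r) * s with he
      have hsR0 : (0 : ℝ) ≤ s := by exact_mod_cast hs0
      have hsR1 : (s : ℝ) ≤ q - 1 := by
        have : s ≤ q - 1 := by omega
        exact_mod_cast this
      have heb : |e| < 1 / q := by
        rw [he, abs_mul, abs_of_nonneg hsR0]
        have hQR : (q : ℝ) ≤ Q := by exact_mod_cast hQ
        calc |ξ - r| * s ≤ 1 / (((Q : ℝ) + 1) * q) * s := by
              apply mul_le_mul_of_nonneg_right hr hsR0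
          _ = (s / (Q + 1)) * (1 / q) := by field_simp
          _ < 1 * (1 / q) := by
              apply mul_lt_mul_of_pos_right _ (by positivity)
              rw [div_lt_one (by linarith)]
              linarith
          _ = 1 / q := one_mul _
      have hval : ξ * ((m + s.toNat : ℕ) : ℝ) = (c + i / q + e - 1) + ((⌊ξ * m⌋ + k + 1 : ℤ) : ℝ) := by
        push_cast
        rw [hsR]
        have h1 : ξ * (m + s) = ξ * m + (r.num * s) / q + e := by
          rw [he, hrR]; field_simp; ring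
        rw [h1, hkR]
        have h2 : ξ * (m : ℝ) = ⌊ξ * m⌋ + c := by rw [hc]; exact (Int.floor_add_fract _).symm
        rw [h2]
        field_simp
        simp only [Int.floor_intCast_add, hc, Int.floor_fract]
        push_cast
        ring
      have hiq1 : a + 1 - c + 1 / q ≤ i / q := by
        rw [le_div_iff₀ hqR]
        have := hi.1
        rw [hx] at this
        have h3 : (a + 1 - c + 1 / q) * q = q * (a + 1 - c) + 1 := by field_simp
        linarith
      have hiq2 : (i : ℝ) / q ≤ b + 1 - c - 1 / q := by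
        rw [div_le_iff₀ hqR]
        have := hi.2
        rw [hy] at this
        have h3 : (b + 1 - c - 1 / q) * q = q * (b + 1 - c) - 1 := by field_simp
        linarith
      rw [abs_lt] at heb
      have hz1 : a < c + i / q + e - 1 := by linarith [heb.1]
      have hz2 : c + i / q + e - 1 < b := by linarith [heb.2]
      have hfr : Int.fract (ξ * ((m + s.toNat : ℕ) : ℝ)) = c + i / q + e - 1 := by
        rw [hval, Int.fract_add_intCast]
        exact Int.fract_eq_self.2 ⟨by linarith, by linarith⟩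
      rw [hfr]
      exact ⟨hz1, hz2⟩
    · intro i hi j hj hij
      rw [hI, Finset.coe_Icc, Set.mem_Icc, Int.ceil_le, Int.le_floor] at hi hj
      simp only [Nat.add_left_cancel_iff] at hij
      have hs0 : 0 ≤ (i * u) % (q : ℤ) := Int.emod_nonneg _ (by omega)
      have ht0 : 0 ≤ (j * u) % (q : ℤ) := Int.emod_nonneg _ (by omega)
      have h1 : (i * u) % (q : ℤ) = (j * u) % (q : ℤ) := by omega
      have h2 : (q : ℤ) ∣ (i * u - j * u) :=
        Int.ModEq.dvd (show Int.ModEq (q : ℤ) (j * u) (i * u) from h1.symm)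
      have h3 : (q : ℤ) ∣ i - j := by
        have h4 : i - j = r.num * (i * u - j * u) + q * (v * (i - j)) := by
          have : (i - j) * (u * r.num + v * q) = i - j := by rw [huv, mul_one]
          linear_combination -this
        rw [h4]
        exact dvd_add (Dvd.dvd.mul_left h2 _) (dvd_mul_right _ _)
      have h5 : |(i : ℝ) - j| < q := by
        have e1 : y - x ≤ q - 2 := by
          rw [hx, hy]
          have : (q : ℝ) * (b - a) ≤ q * 1 := mul_le_mul_of_nonneg_left (by linarith) hqR.le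
          linarith
        rw [abs_lt]
        constructor <;> linarith [hi.1, hi.2, hj.1, hj.2]
      have h6 : |i - j| < q := by exact_mod_cast h5
      have h7 : i - j = 0 := Int.eq_zero_of_abs_lt_dvd h3 h6
      omega
  exact_mod_cast hmaps

/-- the number of hits of the window `(a,b)` among `t ∈ [m, m+N)` -/
noncomputable def hits (ξ a b : ℝ) (m N : ℕ) : Finset ℕ :=
  (Finset.Ico m (m + N)).filter (fun t : ℕ => Int.fract (ξ * t) ∈ Set.Ioo a b)

lemma hits_mul (ξ a b : ℝ) (q k m : ℕ) (C : ℝ)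
    (h : ∀ m, C ≤ ((hits ξ a b m q).card : ℝ)) :
    (k : ℝ) * C ≤ ((hits ξ a b m (k * q)).card : ℝ) := by
  classical
  induction k with
  | zero => simp
  | succ k ih =>
    have hsplit : hits ξ a b m (k * q) ∪ hits ξ a b (m + k * q) q ⊆
        hits ξ a b m ((k + 1) * q) := by
      intro t ht
      have h0 : (k + 1) * q = k * q + q := by ring
      unfold hits at ht ⊢
      rw [h0]
      rw [Finset.mem_union, Finset.mem_filter, Finset.mem_filter, Finset.mem_Ico,
        Finset.mem_Ico] at ht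
      rw [Finset.mem_filter, Finset.mem_Ico]
      rcases ht with ht | ht
      · exact ⟨⟨ht.1.1, by omega⟩, ht.2⟩
      · exact ⟨⟨by omega, by omega⟩, ht.2⟩
    have hdisj : Disjoint (hits ξ a b m (k * q)) (hits ξ a b (m + k * q) q) := by
      rw [Finset.disjoint_left]
      intro t h1 h2
      unfold hits at h1 h2
      rw [Finset.mem_filter, Finset.mem_Ico] at h1 h2
      omega
    have h1 := Finset.card_le_card hsplit
    rw [Finset.card_union_of_disjoint hdisj] at h1
    have h2 : ((hits ξ a b m (k * q)).card : ℝ) + ((hits ξ a b (m + k * q) q).card : ℝ) ≤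
        ((hits ξ a b m ((k + 1) * q)).card : ℝ) := by exact_mod_cast h1
    have h3 := h (m + k * q)
    push_cast
    linarith

lemma hits_mono (ξ a b : ℝ) (m N N' : ℕ) (h : N ≤ N') :
    (hits ξ a b m N).card ≤ (hits ξ a b m N').card := by
  apply Finset.card_le_card
  intro t ht
  unfold hits at ht ⊢
  rw [Finset.mem_filter, Finset.mem_Ico] at ht ⊢
  exact ⟨⟨ht.1.1, by omega⟩, ht.2⟩

/-- `ξ` is far from the rationals with small denominator: many hits in every long interval -/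
lemma hits_many (ξ a b : ℝ) (ha : 0 ≤ a) (hab : a < b) (hb : b ≤ 1) (Q : ℕ) (hQ0 : 0 < Q)
    (hfar : ∀ r : ℚ, (r.den : ℝ) * (b - a) < 6 → 1 / ((Q : ℝ) + 1) < |ξ - r|)
    (m N : ℕ) (hN : Q ≤ N) : (N : ℝ) * ((b - a) / 4) ≤ ((hits ξ a b m N).card : ℝ) := by
  obtain ⟨r, hr1, hr2⟩ := Real.exists_rat_abs_sub_le_and_den_le ξ hQ0
  have hden : (0 : ℝ) < r.den := by exact_mod_cast r.den_pos
  have hden1 : (1 : ℝ) ≤ r.den := by exact_mod_cast r.den_pos
  have hw : 6 ≤ (r.den : ℝ) * (b - a) := by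
    by_contra hcon
    push Not at hcon
    have h1 := hfar r hcon
    have h2 : 1 / (((Q : ℝ) + 1) * r.den) ≤ 1 / ((Q : ℝ) + 1) := by
      apply one_div_le_one_div_of_le (by positivity)
      nlinarith [(by positivity : (0 : ℝ) < (Q : ℝ) + 1)]
    linarith
  have hb1 : ∀ m, (r.den : ℝ) * (b - a) - 3 ≤ ((hits ξ a b m r.den).card : ℝ) := fun m =>
    block_count ξ r Q hr2 hr1 a b ha hb m
  have h2 := hits_mul ξ a b r.den (N / r.den) m _ hb1
  have h3 : ((hits ξ a b m (N / r.den * r.den)).card : ℝ) ≤ ((hits ξ a b m N).card : ℝ) := by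
    exact_mod_cast hits_mono ξ a b m _ _ (Nat.div_mul_le_self _ _)
  have h4 : (N : ℝ) ≤ 2 * ((N / r.den : ℕ) : ℝ) * r.den := by
    have h5 : 1 ≤ N / r.den := (Nat.one_le_div_iff r.den_pos).2 (hr2.trans hN)
    have h6 : N < (N / r.den + 1) * r.den := by
      have := Nat.lt_div_mul_add (a := N) r.den_pos
      linarith
    have h7 : N ≤ 2 * (N / r.den) * r.den := by nlinarith
    exact_mod_cast h7
  refine le_trans ?_ (h2.trans h3)
  have h5 : (r.den : ℝ) * (b - a) / 2 ≤ (r.den : ℝ) * (b - a) - 3 := by linarith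
  calc (N : ℝ) * ((b - a) / 4) ≤ (2 * ((N / r.den : ℕ) : ℝ) * r.den) * ((b - a) / 4) := by
        apply mul_le_mul_of_nonneg_right h4
        linarith
    _ = ((N / r.den : ℕ) : ℝ) * ((r.den : ℝ) * (b - a) / 2) := by ring
    _ ≤ ((N / r.den : ℕ) : ℝ) * ((r.den : ℝ) * (b - a) - 3) := by
        apply mul_le_mul_of_nonneg_left h5 (Nat.cast_nonneg _)

/-- the greedy step -/
lemma greedy_step (U : Finset ℝ) (a b κ : ℝ) (m N : ℕ) (hN0 : 0 < N)
    (h : ∀ ξ ∈ U, (N : ℝ) * κ ≤ ((hits ξ a b m N).card : ℝ)) :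
    ∃ t ∈ Finset.Ico m (m + N),
      (((U.filter (fun ξ : ℝ => ¬ Int.fract (ξ * (t : ℝ)) ∈ Set.Ioo a b)).card : ℕ) : ℝ) ≤
        (1 - κ) * (U.card : ℝ) := by
  classical
  by_contra hcon
  push Not at hcon
  have hsum : ∑ t ∈ Finset.Ico m (m + N),
      ((U.filter (fun ξ : ℝ => Int.fract (ξ * (t : ℝ)) ∈ Set.Ioo a b)).card : ℝ) =
      ∑ ξ ∈ U, ((hits ξ a b m N).card : ℝ) := by
    have : ∑ t ∈ Finset.Ico m (m + N),
        (U.filter (fun ξ : ℝ => Int.fract (ξ * (t : ℝ)) ∈ Set.Ioo a b)).card =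
        ∑ ξ ∈ U, (hits ξ a b m N).card := by
      unfold hits
      simp only [Finset.card_filter]
      exact Finset.sum_comm
    exact_mod_cast this
  have h1 : (U.card : ℝ) * (N * κ) ≤ ∑ ξ ∈ U, ((hits ξ a b m N).card : ℝ) := by
    rw [← nsmul_eq_mul]
    exact Finset.card_nsmul_le_sum _ _ _ h
  have h2 : ∑ t ∈ Finset.Ico m (m + N),
      ((U.filter (fun ξ : ℝ => Int.fract (ξ * (t : ℝ)) ∈ Set.Ioo a b)).card : ℝ) <
      ∑ t ∈ Finset.Ico m (m + N), κ * U.card := by
    apply Finset.sum_lt_sum_of_nonempty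
    · rw [Finset.nonempty_Ico]; omega
    · intro t ht
      have h3 := hcon t ht
      have h4 := Finset.card_filter_add_card_filter_not (s := U)
        (fun ξ : ℝ => Int.fract (ξ * (t : ℝ)) ∈ Set.Ioo a b)
      have h5 : ((U.filter (fun ξ : ℝ => Int.fract (ξ * (t : ℝ)) ∈ Set.Ioo a b)).card : ℝ) +
        ((U.filter (fun ξ : ℝ => ¬ Int.fract (ξ * (t : ℝ)) ∈ Set.Ioo a b)).card : ℝ) = U.card := by
        exact_mod_cast h4
      linarith
  rw [hsum, Finset.sum_const, Nat.card_Ico, nsmul_eq_mul] at h2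
  have h6 : ((m + N - m : ℕ) : ℝ) = N := by
    congr 1; omega
  rw [h6] at h2
  linarith [mul_comm (U.card : ℝ) ((N : ℝ) * κ), mul_assoc (N : ℝ) κ (U.card : ℝ)]

/-- `S` is lacunary with ratio `1 + δ` -/
def IsLac (δ : ℝ) (S : Set ℕ) : Prop := ∀ x ∈ S, ∀ y ∈ S, x < y → (1 + δ) * (x : ℝ) < y

/-- iterating the greedy step -/
lemma greedy (Ξ : Finset ℝ) (a b κ δ : ℝ) (hδ : 0 < δ) (Q : ℕ)
    (hκ : κ ≤ 1)
    (h : ∀ ξ ∈ Ξ, ∀ m N : ℕ, Q ≤ N → (N : ℝ) * κ ≤ ((hits ξ a b m N).card : ℝ))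
    (T : ℝ) (hT : Q + 2 ≤ δ * T) (hT0 : 0 < T) (n : ℕ) :
    ∃ S : Finset ℕ, IsLac δ S ∧ (∀ t ∈ S, T < t) ∧ (∀ t ∈ S, (t : ℝ) ≤ T * (1 + 3 * δ) ^ n) ∧
      (((Ξ.filter (fun ξ : ℝ => ∀ t ∈ S, ¬ Int.fract (ξ * (t : ℝ)) ∈ Set.Ioo a b)).card : ℕ) : ℝ) ≤
        (1 - κ) ^ n * Ξ.card := by
  classical
  induction n with
  | zero =>
    refine ⟨∅, ?_, by simp, by simp, ?_⟩
    · intro x hx; simp at hx
    · simp
  | succ n ih =>
    obtain ⟨S, hS1, hS2, hS3, hS4⟩ := ih
    set A : ℝ := T * (1 + 3 * δ) ^ n with hA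
    have hpow : 1 ≤ (1 + 3 * δ) ^ n := one_le_pow₀ (by linarith)
    have hAT : T ≤ A := by rw [hA]; nlinarith
    have hA0 : 0 < A := by linarith
    set N : ℕ := ⌊δ * A⌋₊ with hN
    set m : ℕ := ⌊(1 + δ) * A⌋₊ + 1 with hm
    have hδA : Q + 2 ≤ δ * A := hT.trans (mul_le_mul_of_nonneg_left hAT hδ.le)
    have hNQ : Q + 2 ≤ N := by
      rw [hN]
      apply Nat.le_floor
      push_cast
      exact hδA
    set U := Ξ.filter (fun ξ : ℝ => ∀ t ∈ S, ¬ Int.fract (ξ * (t : ℝ)) ∈ Set.Ioo a b) with hU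
    obtain ⟨t, ht, htc⟩ := greedy_step U a b κ m N (by omega)
      (fun ξ hξ => h ξ (Finset.mem_of_mem_filter ξ hξ) m N (by omega))
    rw [Finset.mem_Ico] at ht
    have htl : (1 + δ) * A < t := by
      have h1 : (1 + δ) * A < (⌊(1 + δ) * A⌋₊ : ℝ) + 1 := Nat.lt_floor_add_one _
      have h2 : ((⌊(1 + δ) * A⌋₊ + 1 : ℕ) : ℝ) ≤ t := by exact_mod_cast ht.1
      push_cast at h2
      linarith
    have htu : (t : ℝ) ≤ A * (1 + 3 * δ) := by
      have h1 : ((t : ℕ) : ℝ) + 1 ≤ ((m + N : ℕ) : ℝ) := by exact_mod_cast ht.2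
      have h2 : (N : ℝ) ≤ δ * A := Nat.floor_le (by positivity)
      have h3 : ((⌊(1 + δ) * A⌋₊ : ℕ) : ℝ) ≤ (1 + δ) * A := Nat.floor_le (by positivity)
      rw [hm] at h1
      push_cast at h1
      have h4 : (0 : ℝ) ≤ Q := Nat.cast_nonneg _
      linarith
    have hAt : A < t := by nlinarith
    refine ⟨insert t S, ?_, ?_, ?_, ?_⟩
    · intro x hx y hy hxy
      rw [Finset.coe_insert, Set.mem_insert_iff] at hx hy
      rcases hx with rfl | hx
      · rcases hy with rfl | hy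
        · omega
        · exfalso
          have h1 := hS3 y hy
          have h2 : (x : ℝ) < y := by exact_mod_cast hxy
          linarith
      · rcases hy with rfl | hy
        · have h1 := hS3 x hx
          have h2 : (1 + δ) * (x : ℝ) ≤ (1 + δ) * A := mul_le_mul_of_nonneg_left h1 (by linarith)
          linarith
        · exact hS1 x hx y hy hxy
    · intro x hx
      rw [Finset.mem_insert] at hx
      rcases hx with rfl | hx
      · linarith
      · exact hS2 x hx
    · intro x hx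
      rw [pow_succ, ← mul_assoc, ← hA]
      rw [Finset.mem_insert] at hx
      rcases hx with rfl | hx
      · exact htu
      · have := hS3 x hx
        nlinarith
    · have hsub : (Ξ.filter (fun ξ : ℝ => ∀ t' ∈ insert t S, ¬ Int.fract (ξ * (t' : ℝ)) ∈ Set.Ioo a b)) =
          U.filter (fun ξ : ℝ => ¬ Int.fract (ξ * (t : ℝ)) ∈ Set.Ioo a b) := by
        rw [hU, Finset.filter_filter]
        apply Finset.filter_congr
        intro ξ _
        rw [Finset.forall_mem_insert]
        tauto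
      rw [hsub]
      refine htc.trans ?_
      rw [pow_succ]
      have : (1 - κ) * (U.card : ℝ) ≤ (1 - κ) * ((1 - κ) ^ n * Ξ.card) :=
        mul_le_mul_of_nonneg_left hS4 (by linarith)
      linarith [mul_comm ((1 - κ) ^ n * (Ξ.card : ℝ)) (1 - κ), mul_assoc ((1 - κ) ^ n) (1 - κ) (Ξ.card : ℝ),
        mul_comm ((1 - κ) ^ n) (1 - κ), mul_assoc (1 - κ) ((1 - κ) ^ n) (Ξ.card : ℝ),
        mul_comm (1 - κ) ((1 - κ) ^ n)]

end Pool.Agent.TH842.Lac
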