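import Pool.Agent.TH842.Lac.Block

set_option autoImplicit false

namespace Pool.Agent.TH842.Lac

open Finset Filter Topology

lemma fract_mul_nat (ξ : ℝ) (t : ℕ) : Int.fract (Int.fract ξ * t) = Int.fract (ξ * t) := by
  have h : ξ * t = Int.fract ξ * t + ((⌊ξ⌋ * (t : ℤ) : ℤ) : ℝ) := by
    have := Int.self_sub_floor ξ
    push_cast
    rw [← this]; ring
  rw [h, Int.fract_add_intCast]

/-- one block -/
lemma block (a b τ δ : ℝ) (hab : a < b) (hτ : 0 < τ) (haτ : 0 ≤ a - τ)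
    (hbτ : b + τ ≤ 1) (hδ : 0 < δ) (hδκ : (1 + 3 * δ) * (1 - (b - a) / 4) < 1)
    (η : ℝ) (hη : 0 < η) (T0 : ℝ) :
    ∃ S : Finset ℕ, IsLac δ S ∧ (∀ t ∈ S, T0 < t) ∧
      ∀ ξ : ℝ, (∀ r : ℚ, (r.den : ℝ) * (b - a) < 6 → η ≤ |ξ - r|) →
        ∃ t ∈ S, Int.fract (ξ * (t : ℝ)) ∈ Set.Ioo (a - τ) (b + τ) := by
  classical
  have ha : 0 ≤ a := by linarith
  have hb : b ≤ 1 := by linarith
  set κ : ℝ := (b - a) / 4 with hκ
  have hκ0 : 0 < κ := by rw [hκ]; linarith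
  have hκ1 : κ ≤ 1 / 4 := by rw [hκ]; linarith
  obtain ⟨Q, hQ⟩ := exists_nat_one_div_lt (show 0 < η / 2 by linarith)
  have hQ' : 1 / (((Q + 1 : ℕ) : ℝ) + 1) < η / 2 := by
    refine lt_of_le_of_lt ?_ hQ
    apply one_div_le_one_div_of_le (by positivity)
    push_cast
    linarith
  set T : ℝ := max (max T0 (((Q + 1 : ℕ) + 2) / δ)) 1 with hT
  have hT1 : 1 ≤ T := le_max_right _ _
  have hTT0 : T0 ≤ T := (le_max_left _ _).trans (le_max_left _ _)
  have hTQ : ((Q + 1 : ℕ) : ℝ) + 2 ≤ δ * T := by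
    have h1 : (((Q + 1 : ℕ) : ℝ) + 2) / δ ≤ T := (le_max_right _ _).trans (le_max_left _ _)
    rw [div_le_iff₀ hδ] at h1
    linarith
  -- choose n
  have hlim : Tendsto (fun n : ℕ => T / τ * ((1 + 3 * δ) * (1 - κ)) ^ n + (2 / η + 2) * (1 - κ) ^ n)
      atTop (𝓝 (T / τ * 0 + (2 / η + 2) * 0)) := by
    apply Tendsto.add
    · apply Tendsto.const_mul
      apply tendsto_pow_atTop_nhds_zero_of_lt_one
      · have : 0 ≤ 1 - κ := by linarith
        positivity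
      · exact hδκ
    · apply Tendsto.const_mul
      exact tendsto_pow_atTop_nhds_zero_of_lt_one (by linarith) (by linarith)
  rw [mul_zero, mul_zero, add_zero] at hlim
  obtain ⟨n, hn⟩ := ((tendsto_order.1 hlim).2 1 one_pos).exists
  set M : ℕ := ⌈T * (1 + 3 * δ) ^ n / τ + 2 / η⌉₊ + 1 with hM
  have hM1 : T * (1 + 3 * δ) ^ n / τ + 2 / η ≤ M := by
    rw [hM]; push_cast
    have := Nat.le_ceil (T * (1 + 3 * δ) ^ n / τ + 2 / η)
    linarith
  have hM2 : (M : ℝ) ≤ T * (1 + 3 * δ) ^ n / τ + 2 / η + 2 := by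
    rw [hM]; push_cast
    have := Nat.ceil_lt_add_one (show 0 ≤ T * (1 + 3 * δ) ^ n / τ + 2 / η by positivity)
    linarith
  have hM0 : (0 : ℝ) < M := by rw [hM]; positivity
  have hMn : (M : ℝ) * (1 - κ) ^ n < 1 := by
    refine lt_of_le_of_lt ?_ hn
    have h1 : 0 ≤ (1 - κ) ^ n := pow_nonneg (by linarith) n
    calc (M : ℝ) * (1 - κ) ^ n ≤ (T * (1 + 3 * δ) ^ n / τ + 2 / η + 2) * (1 - κ) ^ n :=
          mul_le_mul_of_nonneg_right hM2 h1
      _ = _ := by rw [mul_pow]; ring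
  set Ξ : Finset ℝ := ((Finset.range M).image (fun i : ℕ => (i : ℝ) / M)).filter
    (fun x => ∀ r : ℚ, (r.den : ℝ) * (b - a) < 6 → 1 / (((Q + 1 : ℕ) : ℝ) + 1) < |x - r|) with hΞ
  have hΞcard : (Ξ.card : ℝ) ≤ M := by
    have h1 : Ξ.card ≤ M := by
      calc Ξ.card ≤ ((Finset.range M).image (fun i : ℕ => (i : ℝ) / M)).card :=
            Finset.card_filter_le _ _
        _ ≤ (Finset.range M).card := Finset.card_image_le
        _ = M := Finset.card_range M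
    exact_mod_cast h1
  obtain ⟨S, hS1, hS2, hS3, hS4⟩ := greedy Ξ a b κ δ hδ (Q + 1) (by linarith) (by
    intro x hx m N hN
    rw [hΞ, Finset.mem_filter] at hx
    exact hits_many x a b ha hab hb (Q + 1) (by omega) hx.2 m N hN) T hTQ (by linarith) n
  refine ⟨S, hS1, fun t ht => lt_of_le_of_lt hTT0 (hS2 t ht), ?_⟩
  intro ξ hξ
  set ξ0 : ℝ := Int.fract ξ with hξ0
  have hξ00 : 0 ≤ ξ0 := Int.fract_nonneg _
  have hξ01 : ξ0 < 1 := Int.fract_lt_one _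
  set i : ℕ := ⌊ξ0 * M⌋₊ with hi
  have hi1 : (i : ℝ) ≤ ξ0 * M := Nat.floor_le (by positivity)
  have hi2 : ξ0 * M < i + 1 := Nat.lt_floor_add_one _
  have hiM : i < M := by
    have : (i : ℝ) < M := by nlinarith
    exact_mod_cast this
  set x : ℝ := (i : ℝ) / M with hx
  have hx1 : x ≤ ξ0 := by rw [hx, div_le_iff₀ hM0]; exact hi1
  have hx2 : ξ0 - x < 1 / M := by
    rw [hx, lt_div_iff₀ hM0]
    have : (ξ0 - (i : ℝ) / M) * M = ξ0 * M - i := by field_simp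
    rw [this]; linarith
  have hMη : 1 / (M : ℝ) ≤ η / 2 := by
    rw [div_le_iff₀ hM0]
    have h1 : 2 / η ≤ M := by
      have : 0 ≤ T * (1 + 3 * δ) ^ n / τ := by positivity
      linarith
    rw [div_le_iff₀ hη] at h1
    linarith
  have hxΞ : x ∈ Ξ := by
    rw [hΞ, Finset.mem_filter]
    refine ⟨Finset.mem_image.2 ⟨i, Finset.mem_range.2 hiM, rfl⟩, ?_⟩
    intro r hr
    have h1 := hξ (r + (⌊ξ⌋ : ℤ)) (by rw [Rat.add_intCast_den]; exact hr)
    have h2 : ξ - ((r + (⌊ξ⌋ : ℤ) : ℚ) : ℝ) = ξ0 - r := by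
      rw [hξ0]; push_cast; rw [← Int.self_sub_floor ξ]; ring
    rw [h2] at h1
    have h3 : |ξ0 - r| ≤ |x - r| + (ξ0 - x) := by
      have e : ξ0 - r = (x - r) + (ξ0 - x) := by ring
      rw [e]
      refine (abs_add_le _ _).trans ?_
      rw [abs_of_nonneg (show 0 ≤ ξ0 - x by linarith)]
    linarith
  have hcov : ∃ t ∈ S, Int.fract (x * (t : ℝ)) ∈ Set.Ioo a b := by
    by_contra hcon
    push Not at hcon
    have h1 : x ∈ Ξ.filter (fun ξ : ℝ => ∀ t ∈ S, ¬ Int.fract (ξ * (t : ℝ)) ∈ Set.Ioo a b) :=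
      Finset.mem_filter.2 ⟨hxΞ, hcon⟩
    have h2 : 1 ≤ (Ξ.filter (fun ξ : ℝ => ∀ t ∈ S, ¬ Int.fract (ξ * (t : ℝ)) ∈ Set.Ioo a b)).card :=
      Finset.card_pos.2 ⟨x, h1⟩
    have h3 : (1 : ℝ) ≤ ((Ξ.filter
      (fun ξ : ℝ => ∀ t ∈ S, ¬ Int.fract (ξ * (t : ℝ)) ∈ Set.Ioo a b)).card : ℕ) := by
      exact_mod_cast h2
    have h4 : (1 - κ) ^ n * (Ξ.card : ℝ) ≤ (1 - κ) ^ n * M :=
      mul_le_mul_of_nonneg_left hΞcard (pow_nonneg (by linarith) n)
    linarith [hS4, mul_comm (M : ℝ) ((1 - κ) ^ n)]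
  obtain ⟨t, htS, ht⟩ := hcov
  refine ⟨t, htS, ?_⟩
  rw [← fract_mul_nat, ← hξ0]
  have htM : (t : ℝ) ≤ τ * M := by
    have h1 := hS3 t htS
    have h2 : T * (1 + 3 * δ) ^ n / τ ≤ M := by
      have : 0 ≤ 2 / η := by positivity
      linarith
    rw [div_le_iff₀ hτ] at h2
    linarith
  have he0 : 0 ≤ (ξ0 - x) * t := mul_nonneg (by linarith) (Nat.cast_nonneg _)
  have he1 : (ξ0 - x) * t ≤ τ := by
    calc (ξ0 - x) * t ≤ 1 / M * (τ * M) := by
          apply mul_le_mul hx2.le htM (Nat.cast_nonneg _) (by positivity)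
      _ = τ := by field_simp
  have he2 : (ξ0 - x) * t < τ ∨ (ξ0 - x) * t = τ := lt_or_eq_of_le he1
  have hval : ξ0 * t = (Int.fract (x * t) + (ξ0 - x) * t) + ((⌊x * t⌋ : ℤ) : ℝ) := by
    rw [← Int.self_sub_floor (x * t)]; ring
  have hfr : Int.fract (ξ0 * t) = Int.fract (x * t) + (ξ0 - x) * t := by
    rw [hval, Int.fract_add_intCast]
    refine Int.fract_eq_self.2 ⟨by linarith [ht.1], ?_⟩
    linarith [ht.2]
  rw [hfr]
  exact ⟨by linarith [ht.1], by linarith [ht.2]⟩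

/-- concatenation of blocks -/
lemma concat (δ : ℝ) (hδ : 0 ≤ δ) (P : ℕ → Finset ℕ → Prop)
    (h : ∀ (i : ℕ) (T : ℝ), ∃ S : Finset ℕ, IsLac δ S ∧ (∀ t ∈ S, T < t) ∧ P i S) :
    ∃ U : Set ℕ, IsLac δ U ∧ (∀ t ∈ U, 0 < t) ∧
      ∀ i : ℕ, ∃ S : Finset ℕ, (↑S ⊆ U) ∧ (∀ t ∈ S, i < t) ∧ P i S := by
  classical
  choose F hF1 hF2 hF3 using h
  obtain ⟨V, hV0, hVs⟩ : ∃ V : ℕ → Finset ℕ, V 0 = ∅ ∧
      ∀ i : ℕ, V (i + 1) = V i ∪ F i ((1 + δ) * (((V i).sup id : ℕ) : ℝ) + i) :=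
    ⟨fun n => Nat.rec ∅ (fun i W => W ∪ F i ((1 + δ) * ((W.sup id : ℕ) : ℝ) + i)) n,
      rfl, fun i => rfl⟩
  have hbig : ∀ i, ∀ y ∈ F i ((1 + δ) * (((V i).sup id : ℕ) : ℝ) + i), ∀ x ∈ V i,
      (1 + δ) * (x : ℝ) < y := by
    intro i y hy x hx
    have h1 := hF2 i _ y hy
    have h2 : (x : ℝ) ≤ ((V i).sup id : ℕ) := by
      exact_mod_cast Finset.le_sup (f := id) hx
    have h3 : (0 : ℝ) ≤ i := Nat.cast_nonneg _
    nlinarith
  have hLac : ∀ i : ℕ, IsLac δ (↑(V i) : Set ℕ) := by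
    intro i
    induction i with
    | zero => intro x hx; simp [hV0] at hx
    | succ i ih =>
      rw [hVs]
      intro x hx y hy hxy
      rw [Finset.mem_coe, Finset.mem_union] at hx hy
      rcases hx with hx | hx <;> rcases hy with hy | hy
      · exact ih x hx y hy hxy
      · exact hbig i y hy x hx
      · exfalso
        have h1 := hbig i x hx y hy
        have h2 : (x : ℝ) < y := by exact_mod_cast hxy
        have h3 : (0 : ℝ) ≤ y := Nat.cast_nonneg _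
        nlinarith
      · exact hF1 i _ x hx y hy hxy
  have hmono : ∀ i k : ℕ, V i ⊆ V (i + k) := by
    intro i k
    induction k with
    | zero => exact Finset.Subset.refl _
    | succ k ih =>
      rw [← Nat.add_assoc, hVs]
      exact ih.trans Finset.subset_union_left
  refine ⟨⋃ i, (V i : Set ℕ), ?_, ?_, ?_⟩
  · intro x hx y hy hxy
    rw [Set.mem_iUnion] at hx hy
    obtain ⟨i, hi⟩ := hx
    obtain ⟨j, hj⟩ := hy
    have h1 : x ∈ V (i + j) := hmono i j hi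
    have h2 : y ∈ V (i + j) := by rw [add_comm]; exact hmono j i hj
    exact hLac (i + j) x h1 y h2 hxy
  · intro t ht
    rw [Set.mem_iUnion] at ht
    obtain ⟨i, hi⟩ := ht
    induction i with
    | zero => simp [hV0] at hi
    | succ i ih =>
      rw [hVs, Finset.mem_coe, Finset.mem_union] at hi
      rcases hi with hi | hi
      · exact ih hi
      · have h1 := hF2 i _ t hi
        have h2 : (0 : ℝ) ≤ (1 + δ) * (((V i).sup id : ℕ) : ℝ) + i := by positivity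
        have h3 : (0 : ℝ) < t := by linarith
        exact_mod_cast h3
  · intro i
    refine ⟨F i ((1 + δ) * (((V i).sup id : ℕ) : ℝ) + i), ?_, ?_, hF3 i _⟩
    · refine Set.Subset.trans ?_ (Set.subset_iUnion _ (i + 1))
      rw [hVs, Finset.coe_union]
      exact Set.subset_union_right
    · intro t ht
      have h1 := hF2 i _ t ht
      have h2 : (0 : ℝ) ≤ (1 + δ) * (((V i).sup id : ℕ) : ℝ) := by positivity
      have h3 : (i : ℝ) < t := by linarith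
      exact_mod_cast h3

/-- an irrational number stays away from the rationals with bounded denominator -/
lemma far (ξ : ℝ) (hξ : Irrational ξ) (D : ℕ) : ∃ η : ℝ, 0 < η ∧ ∀ r : ℚ, r.den ≤ D → η ≤ |ξ - r| := by
  set q : ℕ := D.factorial with hq
  have hq0 : (0 : ℝ) < q := by exact_mod_cast Nat.factorial_pos D
  have hirr : Irrational ((q : ℝ) * ξ) := by
    have : (q : ℝ) ≠ 0 := hq0.ne'
    exact hξ.natCast_mul (Nat.factorial_pos D).ne'
  refine ⟨|(q : ℝ) * ξ - round ((q : ℝ) * ξ)| / q, ?_, ?_⟩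
  · apply div_pos _ hq0
    rw [abs_pos, sub_ne_zero]
    exact hirr.ne_int _
  · intro r hr
    rw [div_le_iff₀ hq0]
    obtain ⟨k, hk⟩ : r.den ∣ q := Nat.dvd_factorial r.den_pos hr
    have h1 : (q : ℝ) * r = ((k * r.num : ℤ) : ℝ) := by
      have h2 : (r : ℝ) * r.den = r.num := by exact_mod_cast Rat.mul_den_eq_num r
      rw [hk]; push_cast
      rw [← h2]; ring
    have h3 := round_le ((q : ℝ) * ξ) (k * r.num)
    rw [← h1] at h3
    refine h3.trans (le_of_eq ?_)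
    rw [← mul_sub, abs_mul, abs_of_pos hq0, mul_comm]

/-- the main construction -/
theorem main (K0 : ℕ) (hK0 : 0 < K0) :
    ∃ t : ℕ → ℕ, (∀ n, 0 < t n) ∧
      (∀ n, (1 + 1 / (48 * (K0 : ℝ))) * (t n : ℝ) < t (n + 1)) ∧
      ∀ ξ : ℝ, Irrational ξ → ∀ j : ℕ, j < K0 →
        ∃ᶠ n in atTop, Int.fract (ξ * (t n : ℝ)) ∈ Set.Ioo ((j : ℝ) / K0) (((j : ℝ) + 1) / K0) := by
  classical
  have hK : (0 : ℝ) < K0 := by exact_mod_cast hK0
  have hK1 : (1 : ℝ) ≤ K0 := by exact_mod_cast hK0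
  set δ : ℝ := 1 / (48 * (K0 : ℝ)) with hδ
  have hδ0 : 0 < δ := by positivity
  have hblock : ∀ (i : ℕ) (T : ℝ), ∃ S : Finset ℕ, IsLac δ S ∧ (∀ t ∈ S, T < t) ∧
      (∀ ξ : ℝ, (∀ r : ℚ, r.den ≤ 12 * K0 → 1 / ((i : ℝ) + 1) ≤ |ξ - r|) →
        ∃ t ∈ S, Int.fract (ξ * (t : ℝ)) ∈
          Set.Ioo (((i % K0 : ℕ) : ℝ) / K0) ((((i % K0 : ℕ) : ℝ) + 1) / K0)) := by
    intro i T
    set j : ℕ := i % K0 with hj
    have hjK : (j : ℝ) + 1 ≤ K0 := by
      have : j + 1 ≤ K0 := Nat.mod_lt i hK0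
      exact_mod_cast this
    obtain ⟨S, h1, h2, h3⟩ := block ((j : ℝ) / K0 + 1 / (4 * K0)) ((j : ℝ) / K0 + 3 / (4 * K0))
      (1 / (4 * K0)) δ (by
        have : 1 / (4 * (K0 : ℝ)) < 3 / (4 * K0) := by
          apply div_lt_div_of_pos_right _ (by positivity); norm_num
        linarith) (by positivity) (by
        have : 0 ≤ (j : ℝ) / K0 := by positivity
        linarith) (by
        have e : (j : ℝ) / K0 + 3 / (4 * K0) + 1 / (4 * K0) = ((j : ℝ) + 1) / K0 := by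
          field_simp; ring
        rw [e, div_le_one hK]; exact hjK) hδ0 (by
        have e : (j : ℝ) / K0 + 3 / (4 * K0) - ((j : ℝ) / K0 + 1 / (4 * K0)) = 1 / (2 * K0) := by
          field_simp; ring
        rw [e, hδ]
        have e2 : (1 + 3 * (1 / (48 * (K0 : ℝ)))) * (1 - 1 / (2 * K0) / 4) =
          1 - (1 / (16 * (K0 : ℝ)) + 1 / (128 * (K0 : ℝ) ^ 2)) := by
          field_simp; ring
        rw [e2]
        have : 0 < 1 / (16 * (K0 : ℝ)) + 1 / (128 * (K0 : ℝ) ^ 2) := by positivity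
        linarith) (1 / ((i : ℝ) + 1)) (by positivity) T
    refine ⟨S, h1, h2, ?_⟩
    intro ξ hξ
    obtain ⟨t, ht1, ht2⟩ := h3 ξ (by
      intro r hr
      apply hξ r
      have e : (j : ℝ) / K0 + 3 / (4 * K0) - ((j : ℝ) / K0 + 1 / (4 * K0)) = 1 / (2 * K0) := by
        field_simp; ring
      rw [e, mul_one_div, div_lt_iff₀ (by positivity)] at hr
      have : (r.den : ℝ) < ((12 * K0 : ℕ) : ℝ) := by push_cast; linarith
      exact le_of_lt (by exact_mod_cast this))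
    refine ⟨t, ht1, ?_⟩
    have e1 : (j : ℝ) / K0 + 1 / (4 * K0) - 1 / (4 * K0) = (j : ℝ) / K0 := by ring
    have e2 : (j : ℝ) / K0 + 3 / (4 * K0) + 1 / (4 * K0) = ((j : ℝ) + 1) / K0 := by
      field_simp; ring
    rw [e1, e2] at ht2
    exact ht2
  obtain ⟨U, hU1, hU2, hU3⟩ := concat δ hδ0.le _ hblock
  -- the key: arbitrarily large hits in `U`
  have key : ∀ ξ : ℝ, Irrational ξ → ∀ j : ℕ, j < K0 → ∀ B : ℕ, ∃ t ∈ U, B < t ∧
      Int.fract (ξ * (t : ℝ)) ∈ Set.Ioo ((j : ℝ) / K0) (((j : ℝ) + 1) / K0) := by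
    intro ξ hξ j hj B
    obtain ⟨η, hη, hfar⟩ := far ξ hξ (12 * K0)
    obtain ⟨m, hm⟩ := exists_nat_gt (1 / η)
    set i : ℕ := j + K0 * (B + m) with hi
    have hij : i % K0 = j := by rw [hi, Nat.add_mul_mod_self_left]; exact Nat.mod_eq_of_lt hj
    have hiB : B + m ≤ i := by
      rw [hi]; nlinarith
    obtain ⟨S, hS1, hS2, hS3⟩ := hU3 i
    obtain ⟨t, ht1, ht2⟩ := hS3 ξ (by
      intro r hr
      refine le_trans ?_ (hfar r hr)
      rw [div_le_iff₀ (by positivity)]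
      rw [div_lt_iff₀ hη] at hm
      have h1 : (m : ℝ) ≤ i := by exact_mod_cast (by omega : m ≤ i)
      nlinarith)
    rw [hij] at ht2
    refine ⟨t, hS1 ht1, ?_, ht2⟩
    have := hS2 t ht1
    omega
  have hUinf : U.Infinite := by
    rw [Set.infinite_iff_exists_gt]
    intro B
    obtain ⟨t, ht1, ht2, _⟩ := key (Real.sqrt 2) irrational_sqrt_two 0 hK0 B
    exact ⟨t, ht1, ht2⟩
  have hinf : (Set.ofPred (fun x => x ∈ U)).Infinite := hUinf
  have hmem : ∀ n, Nat.nth (· ∈ U) n ∈ U := fun n => Nat.nth_mem_of_infinite hinf n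
  have hmono : StrictMono (Nat.nth (· ∈ U)) := Nat.nth_strictMono hinf
  refine ⟨fun n => Nat.nth (· ∈ U) n, fun n => hU2 _ (hmem n), fun n => ?_, ?_⟩
  · exact hU1 _ (hmem n) _ (hmem (n + 1)) (hmono (Nat.lt_succ_self n))
  · intro ξ hξ j hj
    rw [Filter.frequently_atTop]
    intro N
    obtain ⟨t, ht1, ht2, ht3⟩ := key ξ hξ j hj (Nat.nth (· ∈ U) N)
    have hr : t ∈ Set.range (Nat.nth (· ∈ U)) := by
      rw [Nat.range_nth_of_infinite hinf]; exact ht1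
    obtain ⟨n, hn⟩ := hr
    refine ⟨n, ?_, ?_⟩
    · rw [← hn] at ht2
      exact (hmono.lt_iff_lt.1 ht2).le
    · simp only [hn]
      exact ht3

end Pool.Agent.TH842.Lac
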